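import Pool.Agent.W516.MTZ.Stm

set_option autoImplicit false

namespace Pool.Agent.W756.MTZ

open Pool.Agent.W516.MTZ

theorem T_MU (h : StAut) : StMu := by
  intro a ha S hS
  have ha0 : a ≠ 0 := by
    rintro rfl
    exact ha isAlgebraic_zero
  rw [eq_top_iff]
  rintro v -
  by_cases hv : Transcendental ℚ ((v : ℂ) * a)
  · obtain ⟨σ, hσ⟩ := h a _ ha hv
    apply hS σ v
    rw [hσ]
    field_simp
  · have halg : IsAlgebraic ℚ ((v : ℂ) * a) := by
      by_contra hc
      exact hv hc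
    have hα0 : (v : ℂ) * a ≠ 0 := mul_ne_zero v.ne_zero ha0
    have hv0 : (v : ℂ) ≠ 0 := v.ne_zero
    have h1 : Transcendental ℚ (((v : ℂ) * a) * a) := by
      intro h2
      apply ha
      have h3 := h2.mul (halg.inv)
      have h4 : (v : ℂ) * a * a * ((v : ℂ) * a)⁻¹ = a := by field_simp
      rwa [h4] at h3
    have h2 : Transcendental ℚ (a * a) := by
      intro h3
      apply ha
      have h4 : IsAlgebraic ℚ (a ^ 2) := by rw [pow_two]; exact h3
      exact (IsAlgebraic.of_pow (n := 2) (by norm_num) h4)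
    obtain ⟨σ, hσ⟩ := h a _ ha h1
    obtain ⟨τ, hτ⟩ := h a _ ha h2
    have m1 : Units.mk0 _ hα0 ∈ S := hS σ _ (by rw [hσ, Units.val_mk0]; field_simp)
    have m2 : Units.mk0 a ha0 ∈ S := hS τ _ (by rw [hτ, Units.val_mk0]; field_simp)
    have h5 := S.mul_mem m1 (S.inv_mem m2)
    have h6 : v = Units.mk0 _ hα0 * (Units.mk0 a ha0)⁻¹ := by
      ext
      simp only [Units.val_mul, Units.val_mk0, Units.val_inv_eq_inv_val]
      field_simp
    rw [h6]
    exact h5

end Pool.Agent.W756.MTZ
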